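import Pool.Agent.Lib.MP_7b562e_lc.H47Lower

namespace Pool.Agent.Results.MP_7b562e_lc.LogBound

open Pool.Agent.Lib.MP_7b562e_lc

/-- The hypothesis on `U` below is satisfiable. -/
theorem condOptimal_nonvacuous : ∃ U, CondOptimal U := exists_condOptimal

/-- The hypothesis on `V` below is satisfiable. -/
theorem oracleOptimal_nonvacuous : ∃ V, OracleOptimal V := exists_oracleOptimal

/-- For every set `A` there is a constant `c` such that a string of complexity at most `a`
relative to every infinite subset of `A` or of its complement has complexity at most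
`2 ^ (a + c)` given any number. -/
theorem result : ∀ (U : List Bool × ℕ →. List Bool) (V : List Bool × List Bool →. List Bool),
    CondOptimal U → OracleOptimal V →
    ∀ A : Set ℕ, ∃ c : ℕ, ∀ (σ : List Bool) (a : ℕ),
      (⨆ (X : Set ℕ) (_ : X.Infinite ∧ (X ⊆ A ∨ X ⊆ Aᶜ)), oracleC V X σ) ≤ a →
        (⨆ n : ℕ, condC U σ n) ≤ 2 ^ (a + c) :=
  fun _ _ hU hV A => main_lower hU hV.1 A

end Pool.Agent.Results.MP_7b562e_lc.LogBound
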