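import Pool.Agent.Lib.MP_7b562e_lc.H47Upper

namespace Pool.Agent.Results.MP_7b562e_lc.LogGap

open Pool.Agent.Lib.MP_7b562e_lc

/-- The hypothesis on `U` below is satisfiable. -/
theorem condOptimal_nonvacuous : ∃ U, CondOptimal U := exists_condOptimal

/-- The hypothesis on `V` below is satisfiable. -/
theorem oracleOptimal_nonvacuous : ∃ V, OracleOptimal V := exists_oracleOptimal

/-- For all optimal machines there are a set `A` and a constant `c` such that for every `N` there
are strings of complexity at least `2 ^ a` given some number at least `N` and of complexity at most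
`a + c` relative to every infinite subset of `A` or of its complement, with `a` arbitrarily
large. -/
theorem result : ∀ (U : List Bool × ℕ →. List Bool) (V : List Bool × List Bool →. List Bool),
    CondOptimal U → OracleOptimal V →
    ∃ (A : Set ℕ) (c : ℕ), ∀ N k : ℕ, ∃ (σ : List Bool) (a : ℕ), k ≤ a ∧
      (⨆ (X : Set ℕ) (_ : X.Infinite ∧ (X ⊆ A ∨ X ⊆ Aᶜ)), oracleC V X σ) ≤ a + c ∧
        2 ^ a ≤ ⨆ (n : ℕ) (_ : N ≤ n), condC U σ n :=
  fun _ _ hU hV => main_upper hU.1 hV

/-- The statement of the problem file fails. -/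
example (U : List Bool × ℕ →. List Bool) (V : List Bool × List Bool →. List Bool)
    (hU : CondOptimal U) (hV : OracleOptimal V) :
    ¬ ∀ A : Set ℕ, ∃ N c : ℕ, ∀ σ : List Bool, (⨆ (n : ℕ) (_ : N ≤ n), condC U σ n) ≤
      (⨆ (X : Set ℕ) (_ : X.Infinite ∧ (X ⊆ A ∨ X ⊆ Aᶜ)), oracleC V X σ) + c := by
  intro h
  obtain ⟨A, c, hA⟩ := result U V hU hV
  obtain ⟨N, c', h⟩ := h A
  obtain ⟨σ, a, hk, h1, h2⟩ := hA N (c + c' + 2)
  have h3 : (2 : ℕ∞) ^ a ≤ a + c + c' := h2.trans ((h σ).trans (add_le_add_left h1 _))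
  have h4 : 2 ^ a ≤ a + c + c' := by exact_mod_cast h3
  obtain ⟨b, rfl⟩ : ∃ b, a = b + 1 := ⟨a - 1, by omega⟩
  have : b < 2 ^ b := Nat.lt_two_pow_self
  rw [pow_succ] at h4
  omega

end Pool.Agent.Results.MP_7b562e_lc.LogGap
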